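import Mathlib
import Pool.Agent.X86.GR.Main

/-!
# MP_c3b2eb_al, Q1: modules with a right approximation by gradable modules are gradable

Let `R` be a ℤ-graded right artinian ring and `N` a finitely generated right `R`-module.
If `N` has a right approximation by finitely generated gradable modules, then `N` is gradable.

Right `R`-modules are modules over `Rᵐᵒᵖ`.
-/

namespace Pool.Agent.Results.MP_c3b2eb_al.Gradable

open Function Pool.Agent.X86.GR

universe u

variable {R : Type u} [Ring R]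

/-- `ℳ` is a grading of the right `R`-module `M`: `M = ⨁ᵢ ℳ i` and `ℳ i · ℛ j ⊆ ℳ (i + j)`. -/
def IsGradedRight (ℛ : ℤ → AddSubgroup R) (M : Type u) [AddCommGroup M] [Module Rᵐᵒᵖ M]
    (ℳ : ℤ → AddSubgroup M) : Prop :=
  DirectSum.IsInternal ℳ ∧
    ∀ i j : ℤ, ∀ x ∈ ℳ i, ∀ r ∈ ℛ j, MulOpposite.op r • x ∈ ℳ (i + j)

/-- The right `R`-module `N` is gradable: it is isomorphic, as an ungraded module, to a graded
right `R`-module. -/
def IsGradable (ℛ : ℤ → AddSubgroup R) (N : Type u) [AddCommGroup N] [Module Rᵐᵒᵖ N] : Prop :=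
  ∃ (M : Type u) (_ : AddCommGroup M) (_ : Module Rᵐᵒᵖ M) (ℳ : ℤ → AddSubgroup M),
    IsGradedRight ℛ M ℳ ∧ Nonempty (N ≃ₗ[Rᵐᵒᵖ] M)

/-- `f : C → X` is a right approximation of `X` by finitely generated gradable modules. -/
def IsRightApprox (ℛ : ℤ → AddSubgroup R) {C X : Type u} [AddCommGroup C] [Module Rᵐᵒᵖ C]
    [AddCommGroup X] [Module Rᵐᵒᵖ X] (f : C →ₗ[Rᵐᵒᵖ] X) : Prop :=
  Module.Finite Rᵐᵒᵖ C ∧ IsGradable ℛ C ∧
    ∀ (C' : Type u) [AddCommGroup C'] [Module Rᵐᵒᵖ C'], Module.Finite Rᵐᵒᵖ C' →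
      IsGradable ℛ C' → ∀ g : C' →ₗ[Rᵐᵒᵖ] X, ∃ h : C' →ₗ[Rᵐᵒᵖ] C, g = f ∘ₗ h

section conversion

/-- The projections attached to a decomposition. -/
noncomputable def GGrp.ofDecomp {M : Type u} [AddCommGroup M] (ℳ : ℤ → AddSubgroup M)
    [DirectSum.Decomposition ℳ] : GGrp M where
  π i := (ℳ i).subtype.comp ((DFinsupp.evalAddMonoidHom i).comp
    (DirectSum.decomposeAddEquiv ℳ).toAddMonoidHom)
  fin m := by
    classical
    refine ((DirectSum.decompose ℳ m).support.finite_toSet).subset ?_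
    intro i hi
    rw [Finset.mem_coe, DFinsupp.mem_support_iff]
    intro h0
    apply hi
    change ((DirectSum.decompose ℳ m i : ℳ i) : M) = 0
    rw [h0]
    rfl
  sum m := by
    classical
    conv_rhs => rw [← DirectSum.sum_support_decompose ℳ m]
    apply finsum_eq_sum_of_support_subset
    intro i hi
    rw [Finset.mem_coe, DFinsupp.mem_support_iff]
    intro h0
    apply hi
    change ((DirectSum.decompose ℳ m i : ℳ i) : M) = 0
    rw [h0]
    rfl
  orth i j m := by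
    change ((DirectSum.decompose ℳ ((DirectSum.decompose ℳ m j : ℳ j) : M) i : ℳ i) : M)
      = if i = j then ((DirectSum.decompose ℳ m j : ℳ j) : M) else 0
    split_ifs with h
    · subst h
      exact DirectSum.decompose_of_mem_same ℳ (SetLike.coe_mem _)
    · exact DirectSum.decompose_of_mem_ne ℳ (SetLike.coe_mem _) (Ne.symm h)

theorem ofDecomp_apply {M : Type u} [AddCommGroup M] (ℳ : ℤ → AddSubgroup M)
    [DirectSum.Decomposition ℳ] (i : ℤ) (m : M) :
    (GGrp.ofDecomp ℳ).π i m = (DirectSum.decompose ℳ m i : ℳ i) := rfl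

theorem ofDecomp_mem {M : Type u} [AddCommGroup M] (ℳ : ℤ → AddSubgroup M)
    [DirectSum.Decomposition ℳ] {i : ℤ} {m : M} :
    (GGrp.ofDecomp ℳ).π i m = m ↔ m ∈ ℳ i := by
  rw [ofDecomp_apply]
  constructor
  · intro h
    rw [← h]
    exact SetLike.coe_mem _
  · intro h
    exact DirectSum.decompose_of_mem_same ℳ h

/-- The opposite of a graded ring, in projection form. -/
noncomputable def ringOp (ℛ : ℤ → AddSubgroup R) [GradedRing ℛ] : GRing Rᵐᵒᵖ where
  π i := (MulOpposite.opAddEquiv : R ≃+ Rᵐᵒᵖ).toAddMonoidHom.comp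
    (((GGrp.ofDecomp ℛ).π i).comp (MulOpposite.opAddEquiv : R ≃+ Rᵐᵒᵖ).symm.toAddMonoidHom)
  fin m := by
    refine ((GGrp.ofDecomp ℛ).fin m.unop).subset ?_
    intro i hi h0
    exact hi (MulOpposite.unop_injective h0)
  sum m := by
    have := AddMonoidHom.map_finsum (MulOpposite.opAddEquiv : R ≃+ Rᵐᵒᵖ).toAddMonoidHom
      ((GGrp.ofDecomp ℛ).fin m.unop)
    refine this.symm.trans ?_
    rw [(GGrp.ofDecomp ℛ).sum]
    rfl
  orth i j m := by
    apply MulOpposite.unop_injective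
    refine ((GGrp.ofDecomp ℛ).orth i j m.unop).trans ?_
    split_ifs <;> rfl
  mul i j a b h := by
    apply MulOpposite.unop_injective
    have h' : (GGrp.ofDecomp ℛ).π j a.unop = a.unop := congrArg MulOpposite.unop h
    rw [ofDecomp_mem] at h'
    exact DirectSum.coe_decompose_mul_add_of_right_mem ℛ h'

theorem ringOp_apply (ℛ : ℤ → AddSubgroup R) [GradedRing ℛ] (i : ℤ) (a : Rᵐᵒᵖ) :
    (ringOp ℛ).π i a = MulOpposite.op ((GGrp.ofDecomp ℛ).π i a.unop) := rfl

theorem ringOp_mem (ℛ : ℤ → AddSubgroup R) [GradedRing ℛ] {i : ℤ} {a : Rᵐᵒᵖ} :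
    (ringOp ℛ).π i a = a ↔ a.unop ∈ ℛ i := by
  rw [ringOp_apply, ← ofDecomp_mem ℛ]
  constructor
  · intro h; exact congrArg MulOpposite.unop h
  · intro h; rw [h]; rfl

/-- From gradings to projections. -/
theorem gmod_of_graded (ℛ : ℤ → AddSubgroup R) [GradedRing ℛ] (M : Type u) [AddCommGroup M]
    [Module Rᵐᵒᵖ M] (ℳ : ℤ → AddSubgroup M) (h : IsGradedRight ℛ M ℳ) :
    Nonempty (GMod (ringOp ℛ) M) := by
  let _ := h.1.chooseDecomposition
  refine ⟨{ toGGrp := GGrp.ofDecomp ℳ, smul := ?_ }⟩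
  intro i j a m ha
  rw [ringOp_mem] at ha
  refine (GGrp.ofDecomp ℳ).ind
    (P := fun m => (GGrp.ofDecomp ℳ).π (i + j) (a • m) = a • (GGrp.ofDecomp ℳ).π i m) ?_ ?_ ?_ m
  · simp
  · intro x y hx hy
    rw [smul_add, map_add, hx, hy, map_add, smul_add]
  · intro k x hx
    have hx' : x ∈ ℳ k := (ofDecomp_mem ℳ).1 hx
    have hax : (GGrp.ofDecomp ℳ).π (k + j) (a • x) = a • x := by
      rw [ofDecomp_mem]
      exact h.2 k j x hx' a.unop ha
    rw [(GGrp.ofDecomp ℳ).of_self hax, (GGrp.ofDecomp ℳ).of_self hx]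
    by_cases hik : i = k
    · rw [if_pos hik, if_pos (by omega)]
    · rw [if_neg hik, if_neg (by omega), smul_zero]

/-- From projections to gradings. -/
theorem graded_of_gmod (ℛ : ℤ → AddSubgroup R) [GradedRing ℛ] (M : Type u) [AddCommGroup M]
    [Module Rᵐᵒᵖ M] (G : GMod (ringOp ℛ) M) : ∃ ℳ : ℤ → AddSubgroup M, IsGradedRight ℛ M ℳ := by
  classical
  let ℳ : ℤ → AddSubgroup M := fun i =>
    { carrier := {x | G.π i x = x}
      zero_mem' := map_zero _
      add_mem' := by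
        intro x y hx hy
        change G.π i (x + y) = x + y
        rw [map_add, hx, hy]
      neg_mem' := by
        intro x hx
        change G.π i (-x) = -x
        rw [map_neg, hx] }
  have hmem : ∀ i x, x ∈ ℳ i ↔ G.π i x = x := fun _ _ => Iff.rfl
  have key : ∀ (v : DirectSum ℤ fun i => ℳ i) (i : ℤ),
      G.π i (DirectSum.coeAddMonoidHom ℳ v) = v i := by
    intro v i
    induction v using DirectSum.induction_on with
    | zero => simp
    | of j x =>
      rw [DirectSum.coeAddMonoidHom_of, G.of_self x.2]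
      by_cases hij : i = j
      · subst hij
        rw [if_pos rfl, DirectSum.of_eq_same]
      · rw [if_neg hij, DirectSum.of_eq_of_ne _ _ _ hij]
        rfl
    | add x y hx hy => rw [map_add, map_add, hx, hy]; rfl
  refine ⟨ℳ, ⟨?_, ?_⟩, ?_⟩
  · rw [injective_iff_map_eq_zero]
    intro v hv
    ext i
    rw [← key v i, hv, map_zero]
    rfl
  · intro m
    refine ⟨∑ i ∈ (G.fin m).toFinset, DirectSum.of (fun i => ℳ i) i ⟨G.π i m, G.self i m⟩, ?_⟩
    rw [map_sum]
    simp only [DirectSum.coeAddMonoidHom_of]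
    conv_rhs => rw [← G.sum m, finsum_eq_sum _ (G.fin m)]
  · intro i j x hx r hr
    rw [hmem] at hx ⊢
    rw [G.smul i j (MulOpposite.op r) x ((ringOp_mem ℛ).2 hr), hx]

theorem gmod_of_gradable (ℛ : ℤ → AddSubgroup R) [GradedRing ℛ] (N : Type u) [AddCommGroup N]
    [Module Rᵐᵒᵖ N] (h : IsGradable ℛ N) : Nonempty (GMod (ringOp ℛ) N) := by
  obtain ⟨M, _, _, ℳ, hℳ, ⟨e⟩⟩ := h
  obtain ⟨G⟩ := gmod_of_graded ℛ M ℳ hℳ
  refine ⟨G.ofSurj e.symm.toLinearMap e.symm.surjective ?_⟩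
  intro x hx i
  have : x = 0 := by simpa using hx
  rw [this, map_zero, map_zero]

theorem gradable_of_gmod (ℛ : ℤ → AddSubgroup R) [GradedRing ℛ] (N : Type u) [AddCommGroup N]
    [Module Rᵐᵒᵖ N] (G : GMod (ringOp ℛ) N) : IsGradable ℛ N := by
  obtain ⟨𝒩, h𝒩⟩ := graded_of_gmod ℛ N G
  exact ⟨N, inferInstance, inferInstance, 𝒩, h𝒩, ⟨LinearEquiv.refl _ _⟩⟩

end conversion

/-- **Q1 of MP_c3b2eb_al holds.** Let `R = ⨁ᵢ ℛ i` be a ℤ-graded right artinian ring and let `N`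
be a finitely generated right `R`-module with a right approximation `f : C → N` by finitely
generated gradable modules. Then `N` is gradable. -/
theorem _root_.Pool.Agent.Results.MP_c3b2eb_al.Gradable.result
    (ℛ : ℤ → AddSubgroup R) [GradedRing ℛ] [IsArtinian Rᵐᵒᵖ R]
    (N : Type u) [AddCommGroup N] [Module Rᵐᵒᵖ N] [Module.Finite Rᵐᵒᵖ N]
    (C : Type u) [AddCommGroup C] [Module Rᵐᵒᵖ C] (f : C →ₗ[Rᵐᵒᵖ] N)
    (hf : IsRightApprox ℛ f) : IsGradable ℛ N := by
  have : IsArtinianRing Rᵐᵒᵖ := by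
    let e : R ≃ₗ[Rᵐᵒᵖ] Rᵐᵒᵖ :=
      { (MulOpposite.opAddEquiv : R ≃+ Rᵐᵒᵖ) with
        map_smul' := fun a x => rfl }
    exact isArtinian_of_linearEquiv e
  obtain ⟨hfin, hgr, happ⟩ := hf
  obtain ⟨GC⟩ := gmod_of_gradable ℛ C hgr
  obtain ⟨G⟩ := main_proj (ringOp ℛ) (Module.length Rᵐᵒᵖ N) N rfl
    ⟨C, inferInstance, inferInstance, hfin, GC, f, fun C' _ _ hC' GC' g => by
      obtain ⟨h, hh⟩ := happ C' hC' (gradable_of_gmod ℛ C' GC') g
      exact ⟨h, fun x => by rw [hh]; rfl⟩⟩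
  exact gradable_of_gmod ℛ N G

end Pool.Agent.Results.MP_c3b2eb_al.Gradable
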